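import Pool.Agent.Work.MP_2738db_nt_Y_helper29.Base

/-! **GEN**: a combination of translates of `P` coprime to `P₀`. -/

set_option autoImplicit false

namespace Pool.Agent.Work.MP_2738db_nt_Y.helper29

open Finset Polynomial
open Pool.Agent.Work.MP_2738db_nt_Y

/-- the combinations of the translates -/
noncomputable def combH (P : ℚ[X][X]) (Ξ : Finset (ℤ × ℤ)) : ((ℤ × ℤ) → ℚ) →ₗ[ℚ] ℚ[X][X] :=
  ∑ s ∈ Ξ, (LinearMap.proj s).smulRight (tr s.1 s.2 P)

theorem combH_apply (P : ℚ[X][X]) (Ξ : Finset (ℤ × ℤ)) (c : (ℤ × ℤ) → ℚ) :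
    combH P Ξ c = ∑ s ∈ Ξ, c s • tr s.1 s.2 P := by
  simp [combH]

theorem gen : Stmt_Gen := by
  classical
  intro P₀ P D Ξ hP₀ hP hQ
  let W : ℚ[X][X] → Subspace ℚ ((ℤ × ℤ) → ℚ) := fun Q =>
    ((Ideal.span {Q}).restrictScalars ℚ).comap (combH P Ξ)
  have hW : ∀ Q c, c ∈ W Q ↔ Q ∣ combH P Ξ c := by
    intro Q c
    simp only [W, Submodule.mem_comap, Submodule.restrictScalars_mem]
    exact Ideal.mem_span_singleton
  let s : Finset (Subspace ℚ ((ℤ × ℤ) → ℚ)) :=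
    (UniqueFactorizationMonoid.factors P₀).toFinset.image W
  have hs : (⊤ : Subspace ℚ ((ℤ × ℤ) → ℚ)) ∉ s := by
    intro hmem
    obtain ⟨Q, hQm, hQt⟩ := Finset.mem_image.mp hmem
    have hQm' := Multiset.mem_toFinset.mp hQm
    have hirr := UniqueFactorizationMonoid.irreducible_of_factor Q hQm'
    have hdvd := UniqueFactorizationMonoid.dvd_of_mem_factors hQm'
    obtain ⟨t, ht, hnd⟩ := hQ Q hirr hdvd
    apply hnd
    have h1 : (Pi.single t (1 : ℚ) : (ℤ × ℤ) → ℚ) ∈ W Q := by rw [hQt]; trivial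
    rw [hW, combH_apply] at h1
    rw [Finset.sum_eq_single t] at h1
    · simpa using h1
    · intro b _ hb
      simp [hb]
    · intro h
      exact absurd ht h
  have hne := Subspace.biUnion_ne_univ_of_top_notMem hs
  obtain ⟨c, hc⟩ := (Set.ne_univ_iff_exists_notMem _).mp hne
  have hc' : ∀ Q ∈ UniqueFactorizationMonoid.factors P₀, ¬ Q ∣ combH P Ξ c := by
    intro Q hQm hd
    apply hc
    simp only [Set.mem_iUnion]
    refine ⟨W Q, ?_, (hW Q c).mpr hd⟩
    exact Finset.mem_image_of_mem _ (Multiset.mem_toFinset.mpr hQm)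
  refine ⟨combH P Ξ c, ?_, ?_, ?_⟩
  · rw [combH_apply]
    exact biDeg_sum _ _ fun s _ => biDeg_smul (biDeg_tr hP _ _) _
  · intro d hd hd'
    by_contra hu
    have hd0 : d ≠ 0 := by
      rintro rfl
      exact hP₀ (zero_dvd_iff.mp hd)
    obtain ⟨q, hq, hqd⟩ := WfDvdMonoid.exists_irreducible_factor hu hd0
    obtain ⟨Q, hQm, hass⟩ := UniqueFactorizationMonoid.exists_mem_factors_of_dvd hP₀ hq
      (hqd.trans hd)
    exact hc' Q hQm (hass.symm.dvd.trans (hqd.trans hd'))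
  · intro x y h
    rw [combH_apply, ev_sum]
    refine Finset.sum_eq_zero fun s hs => ?_
    rw [ev_smul, ev_tr, h s hs, mul_zero]

end Pool.Agent.Work.MP_2738db_nt_Y.helper29
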