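import Pool.Agent.Work.MP_2738db_nt_Y_helper29.Base

/-! **ZPL**: zero estimate in the plane, for a sum set. -/

set_option autoImplicit false

namespace Pool.Agent.Work.MP_2738db_nt_Y.helper29

open Finset Polynomial
open Pool.Agent.Work.MP_2738db_nt_Y

theorem not_irreducible_const (c : ℚ) : ¬ Irreducible (C (C c) : ℚ[X][X]) := by
  intro h
  rcases eq_or_ne c 0 with rfl | hc
  · simp at h
  · exact h.not_isUnit ((isUnit_C.mpr (isUnit_C.mpr (isUnit_iff_ne_zero.mpr hc))))

theorem assoc_tr_sub {Q : ℚ[X][X]} {s t : ℤ × ℤ}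
    (h : Associated (tr (-s.1) (-s.2) Q) (tr (-t.1) (-t.2) Q)) :
    Associated (tr ((s.1 - t.1 : ℤ) : ℚ) ((s.2 - t.2 : ℤ) : ℚ) Q) Q := by
  have h1 := tr_associated (a := (s.1 : ℚ)) (b := (s.2 : ℚ)) h
  rw [tr_tr_neg, tr_tr] at h1
  push_cast
  rw [sub_eq_add_neg, sub_eq_add_neg]
  exact h1.symm

theorem zpl : Stmt_Bez → Stmt_Tra → Stmt_Few → Stmt_Gen → Stmt_Zpl := by
  classical
  intro hBez hTra hFew hGen P D Ξ hP hPD hvan hform
  rcases Ξ.eq_empty_or_nonempty with rfl | ⟨s₀, hs₀⟩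
  · simp
  by_cases hA : ∃ Q : ℚ[X][X], Irreducible Q ∧ ∀ s ∈ Ξ, Q ∣ tr s.1 s.2 P
  · exfalso
    obtain ⟨Q, hQ, hQs⟩ := hA
    have hQs' : ∀ s ∈ Ξ, tr (-s.1) (-s.2) Q ∣ P := fun s hs => dvd_tr_iff.mp (hQs s hs)
    let f : ℤ × ℤ → Associates ℚ[X][X] := fun s => Associates.mk (tr (-s.1) (-s.2) Q)
    have hf : ∀ s t, f s = f t ↔ Associated (tr (-s.1) (-s.2) Q) (tr (-t.1) (-t.2) Q) :=
      fun s t => Associates.mk_eq_mk_iff_associated
    by_cases hinj : ∀ s ∈ Ξ, ∀ t ∈ Ξ, s ≠ t → f s ≠ f t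
    · have h1 := hFew P Q D Ξ hP hPD hQ hQs' (fun s hs t ht hst h => hinj s hs t ht hst ((hf s t).mpr h))
      have h2 := hform 1 0 (Or.inl one_ne_zero)
      exact absurd (h2.trans_le Finset.card_image_le) (not_lt.mpr h1)
    · push Not at hinj
      obtain ⟨s, hs, t, ht, hst, hfst⟩ := hinj
      have hv : Associated (tr ((s.1 - t.1 : ℤ) : ℚ) ((s.2 - t.2 : ℤ) : ℚ) Q) Q :=
        assoc_tr_sub ((hf s t).mp hfst)
      -- representatives
      have hrep : ∀ a : Associates ℚ[X][X], ∃ r : ℤ × ℤ, a ∈ Ξ.image f → r ∈ Ξ ∧ f r = a := by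
        intro a
        by_cases ha : a ∈ Ξ.image f
        · obtain ⟨r, hr, hra⟩ := Finset.mem_image.mp ha
          exact ⟨r, fun _ => ⟨hr, hra⟩⟩
        · exact ⟨0, fun h => absurd h ha⟩
      choose g hg using hrep
      let T : Finset (ℤ × ℤ) := (Ξ.image f).image g
      have hT : ∀ r ∈ T, r ∈ Ξ ∧ ∃ a ∈ Ξ.image f, r = g a ∧ f r = a := by
        intro r hr
        obtain ⟨a, ha, rfl⟩ := Finset.mem_image.mp hr
        exact ⟨(hg a ha).1, a, ha, rfl, (hg a ha).2⟩
      have hTD : T.card ≤ D := by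
        refine hFew P Q D T hP hPD hQ (fun r hr => hQs' r (hT r hr).1) ?_
        intro r hr r' hr' hne hass
        obtain ⟨_, a, _, hra, hfa⟩ := hT r hr
        obtain ⟨_, a', _, hra', hfa'⟩ := hT r' hr'
        have := (hf r r').mpr hass
        rw [hfa, hfa'] at this
        rw [hra, hra', this] at hne
        exact hne rfl
      have hform' := hform (s.2 - t.2) (-(s.1 - t.1)) (by
        by_contra h
        push Not at h
        apply hst
        ext
        · have := h.2; omega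
        · have := h.1; omega)
      have hsub : Ξ.image (fun r => (s.2 - t.2) * r.1 + (-(s.1 - t.1)) * r.2) ⊆
          T.image (fun r => (s.2 - t.2) * r.1 + (-(s.1 - t.1)) * r.2) := by
        intro z hz
        obtain ⟨r, hr, rfl⟩ := Finset.mem_image.mp hz
        have ha : f r ∈ Ξ.image f := Finset.mem_image_of_mem _ hr
        refine Finset.mem_image.mpr ⟨g (f r), Finset.mem_image_of_mem _ ha, ?_⟩
        have hass := (hf _ _).mp (hg (f r) ha).2
        have hw := assoc_tr_sub hass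
        by_contra hne
        obtain ⟨c, hc⟩ := hTra Q (s.1 - t.1, s.2 - t.2)
          ((g (f r)).1 - r.1, (g (f r)).2 - r.2) (by
            intro h
            apply hne
            simp only at h ⊢
            linear_combination -h) hv hw
        rw [hc] at hQ
        exact not_irreducible_const c hQ
      have h3 := (Finset.card_le_card hsub).trans Finset.card_image_le
      exact absurd (hform'.trans_le h3) (not_lt.mpr hTD)
  · push Not at hA
    have hP₀ : tr (s₀.1 : ℚ) (s₀.2 : ℚ) P ≠ 0 := tr_ne_zero hP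
    obtain ⟨G, hGD, hrel, hG⟩ := hGen (tr (s₀.1 : ℚ) (s₀.2 : ℚ) P) P D Ξ hP₀ hPD
      (fun Q hQ _ => hA Q hQ)
    have hcard : (Ξ.image (fun s : ℤ × ℤ => ((s.1 : ℚ), (s.2 : ℚ)))).card = Ξ.card := by
      apply Finset.card_image_of_injective
      intro a b hab
      simp only [Prod.mk.injEq, Int.cast_inj] at hab
      exact Prod.ext hab.1 hab.2
    rw [← hcard]
    refine hBez _ G D _ (biDeg_tr hPD _ _) hGD hrel ?_
    intro z hz
    obtain ⟨s, hs, rfl⟩ := Finset.mem_image.mp hz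
    refine ⟨?_, ?_⟩
    · rw [ev_tr]
      exact hvan s hs s₀ hs₀
    · exact hG _ _ fun t ht => hvan s hs t ht

end Pool.Agent.Work.MP_2738db_nt_Y.helper29
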