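import Pool.Agent.Work.MP_2738db_nt_Y.Interface

/-! Elementary facts on `tr` and `ev`. -/

set_option autoImplicit false

namespace Pool.Agent.Work.MP_2738db_nt_Y.helper29

open Finset Polynomial
open Pool.Agent.Work.MP_2738db_nt_Y

/-- `tr` as a ring homomorphism -/
noncomputable def trH (a b : ℚ) : ℚ[X][X] →+* ℚ[X][X] :=
  (compRingHom (X + C (C a))).comp (mapRingHom (compRingHom (X + C b)))

theorem trH_apply (a b : ℚ) (P : ℚ[X][X]) : trH a b P = tr a b P := rfl

theorem trH_C (a b : ℚ) (f : ℚ[X]) : trH a b (C f) = C (f.comp (X + C b)) := by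
  rw [trH_apply, tr]
  simp

theorem trH_X (a b : ℚ) : trH a b X = X + C (C a) := by
  rw [trH_apply, tr]
  simp

theorem trH_trH (a b c d : ℚ) : (trH a b).comp (trH c d) = trH (a + c) (b + d) := by
  apply Polynomial.ringHom_ext
  · intro f
    rw [RingHom.comp_apply, trH_C, trH_C, trH_C]
    congr 1
    rw [Polynomial.comp_assoc]
    congr 1
    simp only [add_comp, X_comp, C_comp]
    rw [add_assoc, ← C_add]
  · rw [RingHom.comp_apply, trH_X, trH_X, map_add, trH_X, trH_C, C_comp, add_assoc, ← C_add,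
      ← C_add]

theorem tr_tr (a b c d : ℚ) (P : ℚ[X][X]) : tr a b (tr c d P) = tr (a + c) (b + d) P :=
  congrArg (fun f : ℚ[X][X] →+* ℚ[X][X] => f P) (trH_trH a b c d)

theorem tr_zero_zero (P : ℚ[X][X]) : tr 0 0 P = P := by
  rw [tr]
  have h : (compRingHom (X + C (0 : ℚ)) : ℚ[X] →+* ℚ[X]) = RingHom.id _ := by
    ext <;> simp
  rw [h]
  simp

theorem tr_neg_tr (a b : ℚ) (P : ℚ[X][X]) : tr (-a) (-b) (tr a b P) = P := by
  rw [tr_tr, neg_add_cancel, neg_add_cancel, tr_zero_zero]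

theorem tr_tr_neg (a b : ℚ) (P : ℚ[X][X]) : tr a b (tr (-a) (-b) P) = P := by
  rw [tr_tr, add_neg_cancel, add_neg_cancel, tr_zero_zero]

theorem tr_dvd_tr {a b : ℚ} {P Q : ℚ[X][X]} (h : P ∣ Q) : tr a b P ∣ tr a b Q := by
  obtain ⟨R, rfl⟩ := h
  exact ⟨trH a b R, (trH a b).map_mul P R⟩

theorem dvd_tr_iff {a b : ℚ} {P Q : ℚ[X][X]} : Q ∣ tr a b P ↔ tr (-a) (-b) Q ∣ P := by
  constructor
  · intro h
    have := tr_dvd_tr (a := -a) (b := -b) h
    rwa [tr_neg_tr] at this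
  · intro h
    have := tr_dvd_tr (a := a) (b := b) h
    rwa [tr_tr_neg] at this

theorem tr_zero (a b : ℚ) : tr a b 0 = 0 := (trH a b).map_zero

theorem tr_ne_zero {a b : ℚ} {P : ℚ[X][X]} (h : P ≠ 0) : tr a b P ≠ 0 := by
  intro h0
  apply h
  have := tr_neg_tr a b P
  rw [h0, tr_zero] at this
  exact this.symm

theorem tr_associated {a b : ℚ} {P Q : ℚ[X][X]} (h : Associated P Q) :
    Associated (tr a b P) (tr a b Q) :=
  h.map (trH a b)

theorem ev_tr (a b x y : ℚ) (P : ℚ[X][X]) : ev x y (tr a b P) = ev (x + a) (y + b) P := by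
  unfold ev tr
  rw [eval_comp]
  simp only [eval_add, eval_X, eval_C]
  rw [← C_add, eval_map]
  have h : (C (x + a) : ℚ[X]) = (compRingHom (X + C b)) (C (x + a)) := by simp
  rw [h, eval₂_at_apply]
  simp

theorem biDeg_tr {D : ℕ} {P : ℚ[X][X]} (h : BiDeg D P) (a b : ℚ) : BiDeg D (tr a b P) := by
  have hd : ∀ i, ((P.map (compRingHom (X + C b))).coeff i).natDegree ≤ D := by
    intro i
    rw [coeff_map, coe_compRingHom_apply, natDegree_comp]
    simpa using h.2 i
  refine ⟨?_, ?_⟩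
  · unfold tr
    rw [natDegree_comp]
    have : (X + C (C a) : ℚ[X][X]).natDegree = 1 := natDegree_X_add_C _
    rw [this, mul_one]
    exact (natDegree_map_le).trans h.1
  · intro i
    unfold tr
    set F := P.map (compRingHom (X + C b)) with hF
    rw [Polynomial.comp, eval₂_eq_sum_range, finsetSum_coeff]
    refine natDegree_sum_le_of_forall_le _ _ ?_
    intro j _
    rw [coeff_C_mul, coeff_X_add_C_pow]
    refine (natDegree_mul_le).trans ?_
    have h1 : ((C a : ℚ[X]) ^ (j - i) * ((j.choose i : ℕ) : ℚ[X])).natDegree = 0 := by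
      rw [← C_pow, ← C_eq_natCast, ← C_mul, natDegree_C]
    rw [h1, add_zero]
    exact hd j

theorem ev_sum {ι : Type} (x y : ℚ) (s : Finset ι) (f : ι → ℚ[X][X]) :
    ev x y (∑ i ∈ s, f i) = ∑ i ∈ s, ev x y (f i) := by
  unfold ev
  rw [eval_finsetSum, eval_finsetSum]

theorem ev_smul (x y c : ℚ) (P : ℚ[X][X]) : ev x y (c • P) = c * ev x y P := by
  unfold ev
  rw [eval_smul, eval_smul, smul_eq_mul]

theorem biDeg_smul {D : ℕ} {P : ℚ[X][X]} (h : BiDeg D P) (c : ℚ) : BiDeg D (c • P) := by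
  refine ⟨(natDegree_smul_le _ _).trans h.1, fun i => ?_⟩
  rw [coeff_smul]
  exact (natDegree_smul_le _ _).trans (h.2 i)

theorem biDeg_sum {ι : Type} {D : ℕ} (s : Finset ι) (f : ι → ℚ[X][X])
    (h : ∀ i ∈ s, BiDeg D (f i)) : BiDeg D (∑ i ∈ s, f i) := by
  refine ⟨natDegree_sum_le_of_forall_le _ _ fun i hi => (h i hi).1, fun j => ?_⟩
  rw [finsetSum_coeff]
  exact natDegree_sum_le_of_forall_le _ _ fun i hi => (h i hi).2 j

end Pool.Agent.Work.MP_2738db_nt_Y.helper29
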